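import Pool.Agent.H6.CMT.Krull

/-! Dimension counts, and the case where `S/(I+J)` has embedding dimension at most one. -/

namespace Pool.Agent.H6.CMT

open MvPolynomial

variable {k : Type*} [Field k] {h : ℕ}

/-- the image of `L'` in `S/L` -/
noncomputable def img (L L' : Ideal (MvPolynomial (Fin h) k)) :
    Submodule k (MvPolynomial (Fin h) k ⧸ L) :=
  (Submodule.map (Submodule.mkQ L) L').restrictScalars k

theorem mem_img (L L' : Ideal (MvPolynomial (Fin h) k)) (x : MvPolynomial (Fin h) k ⧸ L) :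
    x ∈ img L L' ↔ ∃ y ∈ L', (Submodule.Quotient.mk y : MvPolynomial (Fin h) k ⧸ L) = x := by
  unfold img
  rw [Submodule.restrictScalars_mem, Submodule.mem_map]
  rfl

/-- `S/L → S/L'` -/
noncomputable def fac (L L' : Ideal (MvPolynomial (Fin h) k)) (hL : L ≤ L') :
    (MvPolynomial (Fin h) k ⧸ L) →ₗ[k] (MvPolynomial (Fin h) k ⧸ L') :=
  (Submodule.factor hL).restrictScalars k

theorem fac_mk (L L' : Ideal (MvPolynomial (Fin h) k)) (hL : L ≤ L')
    (y : MvPolynomial (Fin h) k) :
    fac L L' hL (Submodule.Quotient.mk y) = Submodule.Quotient.mk y := rfl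

theorem fac_surjective (L L' : Ideal (MvPolynomial (Fin h) k)) (hL : L ≤ L') :
    Function.Surjective (fac L L' hL) := by
  intro z
  obtain ⟨y, rfl⟩ := Submodule.Quotient.mk_surjective _ z
  exact ⟨Submodule.Quotient.mk y, rfl⟩

theorem ker_fac (L L' : Ideal (MvPolynomial (Fin h) k)) (hL : L ≤ L') :
    LinearMap.ker (fac L L' hL) = img L L' := by
  ext z
  rw [LinearMap.mem_ker, mem_img]
  obtain ⟨y, rfl⟩ := Submodule.Quotient.mk_surjective _ z
  rw [fac_mk, Submodule.Quotient.mk_eq_zero]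
  constructor
  · intro hy
    exact ⟨y, hy, rfl⟩
  · rintro ⟨w, hw, hwy⟩
    rw [Submodule.Quotient.eq] at hwy
    have := sub_mem hw (hL hwy)
    simpa using this

theorem dq_eq (L L' : Ideal (MvPolynomial (Fin h) k)) (hL : L ≤ L')
    [Module.Finite k (MvPolynomial (Fin h) k ⧸ L)] :
    Module.finrank k (MvPolynomial (Fin h) k ⧸ L) =
      Module.finrank k (MvPolynomial (Fin h) k ⧸ L') + Module.finrank k (img L L') := by
  have h1 := LinearMap.finrank_range_add_finrank_ker (fac L L' hL)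
  rw [LinearMap.range_eq_top.2 (fac_surjective L L' hL), finrank_top, ker_fac] at h1
  exact h1.symm

theorem dq_anti (L L' : Ideal (MvPolynomial (Fin h) k)) (hL : L ≤ L')
    [Module.Finite k (MvPolynomial (Fin h) k ⧸ L)] :
    Module.finrank k (MvPolynomial (Fin h) k ⧸ L') ≤
      Module.finrank k (MvPolynomial (Fin h) k ⧸ L) := by
  rw [dq_eq L L' hL]
  exact Nat.le_add_right _ _

theorem dq_modular (I J : Ideal (MvPolynomial (Fin h) k))
    [Module.Finite k (MvPolynomial (Fin h) k ⧸ (I ⊓ J))] :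
    Module.finrank k (MvPolynomial (Fin h) k ⧸ (I ⊓ J)) +
      Module.finrank k (MvPolynomial (Fin h) k ⧸ (I ⊔ J)) =
      Module.finrank k (MvPolynomial (Fin h) k ⧸ I) +
      Module.finrank k (MvPolynomial (Fin h) k ⧸ J) := by
  have h1 := dq_eq (I ⊓ J) I inf_le_left
  have h2 := dq_eq (I ⊓ J) J inf_le_right
  have h3 := dq_eq (I ⊓ J) (I ⊔ J) (inf_le_left.trans le_sup_left)
  have e1 : img (I ⊓ J) I ⊓ img (I ⊓ J) J = ⊥ := by
    rw [eq_bot_iff]
    rintro z ⟨hz1, hz2⟩
    have hz1' := (mem_img _ _ _).1 hz1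
    have hz2' := (mem_img _ _ _).1 hz2
    obtain ⟨a, ha, rfl⟩ := hz1'
    obtain ⟨b, hb, hab⟩ := hz2'
    rw [Submodule.Quotient.eq] at hab
    rw [Submodule.mem_bot, Submodule.Quotient.mk_eq_zero]
    refine ⟨ha, ?_⟩
    have := sub_mem hb hab.2
    simpa using this
  have e2 : img (I ⊓ J) I ⊔ img (I ⊓ J) J = img (I ⊓ J) (I ⊔ J) := by
    apply le_antisymm
    · refine sup_le ?_ ?_
      · intro z hz
        obtain ⟨a, ha, rfl⟩ := (mem_img _ _ _).1 hz
        exact (mem_img _ _ _).2 ⟨a, Ideal.mem_sup_left ha, rfl⟩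
      · intro z hz
        obtain ⟨a, ha, rfl⟩ := (mem_img _ _ _).1 hz
        exact (mem_img _ _ _).2 ⟨a, Ideal.mem_sup_right ha, rfl⟩
    · intro z hz
      obtain ⟨y, hy, rfl⟩ := (mem_img _ _ _).1 hz
      obtain ⟨a, ha, b, hb, rfl⟩ := Submodule.mem_sup.1 hy
      rw [Submodule.Quotient.mk_add]
      exact Submodule.add_mem_sup ((mem_img _ _ _).2 ⟨a, ha, rfl⟩)
        ((mem_img _ _ _).2 ⟨b, hb, rfl⟩)
  have h4 := Submodule.finrank_sup_add_finrank_inf_eq (img (I ⊓ J) I) (img (I ⊓ J) J)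
  rw [e1, e2, finrank_bot] at h4
  omega

/-- Krull: `dim I/mI ≥ h`. -/
theorem krull_lower (I : Ideal (MvPolynomial (Fin h) k)) (hI : I ≤ irr k h) (c : ℕ)
    (hc : irr k h ^ c ≤ I) [Module.Finite k (MvPolynomial (Fin h) k ⧸ (irr k h * I))] :
    Module.finrank k (MvPolynomial (Fin h) k ⧸ I) + h ≤
      Module.finrank k (MvPolynomial (Fin h) k ⧸ (irr k h * I)) := by
  rw [dq_eq (irr k h * I) I Ideal.mul_le_right]
  refine Nat.add_le_add_left ?_ _
  classical
  let b := Module.finBasis k (img (irr k h * I) I)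
  have hlift : ∀ j, ∃ y ∈ I, (Submodule.Quotient.mk y : MvPolynomial (Fin h) k ⧸ (irr k h * I)) =
      (b j : _) := fun j => (mem_img _ _ _).1 (b j).2
  choose f hfI hfb using hlift
  have hcard := card_gen I hI c hc (Finset.univ.image f) (by
    intro y hy
    obtain ⟨j, _, rfl⟩ := Finset.mem_image.1 hy
    exact hfI j) (by
    intro y hy
    have hy' : (Submodule.Quotient.mk y : MvPolynomial (Fin h) k ⧸ (irr k h * I)) ∈
      img (irr k h * I) I := (mem_img _ _ _).2 ⟨y, hy, rfl⟩
    obtain ⟨co, hrep⟩ : ∃ co : Fin (Module.finrank k (img (irr k h * I) I)) → k,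
        ∑ j, co j • ((b j : img (irr k h * I) I) : MvPolynomial (Fin h) k ⧸ (irr k h * I)) =
          Submodule.Quotient.mk y := by
      refine ⟨fun j => b.repr ⟨_, hy'⟩ j, ?_⟩
      have hrep := congrArg (fun z : img (irr k h * I) I =>
        (z : MvPolynomial (Fin h) k ⧸ (irr k h * I))) (b.sum_repr ⟨_, hy'⟩)
      simpa only [Submodule.coe_sum, Submodule.coe_smul] using hrep
    set z : MvPolynomial (Fin h) k := ∑ j, C (co j) * f j with hz
    have hyz : y - z ∈ irr k h * I := by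
      rw [← Submodule.Quotient.eq, ← hrep, hz, ← Submodule.mkQ_apply, map_sum]
      refine Finset.sum_congr rfl fun j _ => ?_
      rw [← hfb j, ← MvPolynomial.smul_eq_C_mul]
      rfl
    have hzs : z ∈ Ideal.span ((Finset.univ.image f : Finset (MvPolynomial (Fin h) k)) :
        Set (MvPolynomial (Fin h) k)) := by
      rw [hz]
      refine Ideal.sum_mem _ fun j _ => Ideal.mul_mem_left _ _ (Ideal.subset_span ?_)
      rw [Finset.mem_coe]
      exact Finset.mem_image_of_mem f (Finset.mem_univ j)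
    have : y = z + (y - z) := by ring
    rw [this]
    exact Submodule.add_mem_sup hzs hyz)
  refine hcard.trans (Finset.card_image_le.trans ?_)
  simp

end Pool.Agent.H6.CMT
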