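import Pool.Agent.H6.CMT.Curv

/-! The case where `S/(I+J)` has embedding dimension at most one. -/

namespace Pool.Agent.H6.CMT

open MvPolynomial

variable {k : Type*} [Field k] {h : ℕ}

/-- `S/m^2` is spanned by `1, x_1, ..., x_h` -/
theorem exists_lin (y : MvPolynomial (Fin h) k) :
    ∃ (c : k) (v : Fin h → k), y - (C c + ∑ i, C (v i) * X i) ∈ irr k h ^ 2 := by
  have h1 : ∀ z ∈ irr k h, ∃ v : Fin h → k, z - ∑ i, C (v i) * X i ∈ irr k h ^ 2 := by
    intro z hz
    unfold irr at hz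
    refine Submodule.span_induction ?_ ?_ ?_ ?_ hz
    · rintro _ ⟨i, rfl⟩
      refine ⟨Pi.single i 1, ?_⟩
      rw [Finset.sum_eq_single i]
      · simp
      · intro j _ hj
        rw [Pi.single_eq_of_ne hj]
        simp
      · intro hi
        exact absurd (Finset.mem_univ i) hi
    · exact ⟨0, by simp⟩
    · rintro a b - - ⟨v, hv⟩ ⟨w, hw⟩
      refine ⟨v + w, ?_⟩
      have : a + b - ∑ i, C ((v + w) i) * X i =
          (a - ∑ i, C (v i) * X i) + (b - ∑ i, C (w i) * X i) := by
        simp only [Pi.add_apply, map_add, add_mul, Finset.sum_add_distrib]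
        ring
      rw [this]
      exact add_mem hv hw
    · rintro a b - ⟨v, hv⟩
      refine ⟨fun i => constantCoeff a * v i, ?_⟩
      have hsum : (∑ i, C (v i) * X i : MvPolynomial (Fin h) k) ∈ irr k h :=
        Ideal.sum_mem _ fun i _ => Ideal.mul_mem_left _ _ (X_mem_irr i)
      have : a • b - ∑ i, C (constantCoeff a * v i) * X i =
          a * (b - ∑ i, C (v i) * X i) +
            (a - C (constantCoeff a)) * (∑ i, C (v i) * X i) := by
        have e : (∑ i, C (constantCoeff a * v i) * X i : MvPolynomial (Fin h) k) =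
            C (constantCoeff a) * ∑ i, C (v i) * X i := by
          rw [Finset.mul_sum]
          refine Finset.sum_congr rfl fun i _ => ?_
          rw [map_mul]; ring
        rw [e, smul_eq_mul]
        ring
      rw [this]
      refine add_mem (Ideal.mul_mem_left _ _ hv) ?_
      rw [pow_two]
      exact Ideal.mul_mem_mul (sub_C_mem a) hsum
  obtain ⟨v, hv⟩ := h1 _ (sub_C_mem y)
  refine ⟨constantCoeff y, v, ?_⟩
  have : y - (C (constantCoeff y) + ∑ i, C (v i) * X i) =
      y - C (constantCoeff y) - ∑ i, C (v i) * X i := by ring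
  rw [this]
  exact hv

/-- `dim S/((x) + m^2) ≤ h` for `x ∈ m \ m^2`. -/
theorem dim_sup_sq_le (x : MvPolynomial (Fin h) k) (hx2 : x ∉ irr k h ^ 2) :
    Module.finrank k (MvPolynomial (Fin h) k ⧸ (Ideal.span {x} ⊔ irr k h ^ 2)) ≤ h := by
  let Ψ : (k × (Fin h → k)) →ₗ[k]
      (MvPolynomial (Fin h) k ⧸ (Ideal.span {x} ⊔ irr k h ^ 2)) :=
    { toFun := fun z => Submodule.Quotient.mk (C z.1 + ∑ i, C (z.2 i) * X i)
      map_add' := by
        intro a b
        rw [← Submodule.Quotient.mk_add]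
        congr 1
        simp only [Prod.fst_add, Prod.snd_add, Pi.add_apply, map_add, add_mul,
          Finset.sum_add_distrib]
        ring
      map_smul' := by
        intro c a
        rw [RingHom.id_apply]
        have : (c • (Submodule.Quotient.mk (C a.1 + ∑ i, C (a.2 i) * X i) :
            MvPolynomial (Fin h) k ⧸ (Ideal.span {x} ⊔ irr k h ^ 2))) =
            Submodule.Quotient.mk (c • (C a.1 + ∑ i, C (a.2 i) * X i)) := rfl
        rw [this]
        congr 1
        rw [MvPolynomial.smul_eq_C_mul]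
        simp only [Prod.smul_fst, Prod.smul_snd, Pi.smul_apply, smul_eq_mul, map_mul, mul_add,
          Finset.mul_sum]
        congr 1
        refine Finset.sum_congr rfl fun i _ => ?_
        ring }
  have hΨ : Function.Surjective Ψ := by
    intro z
    obtain ⟨y, rfl⟩ := Submodule.Quotient.mk_surjective _ z
    obtain ⟨c, v, hcv⟩ := exists_lin y
    refine ⟨(c, v), ?_⟩
    change Submodule.Quotient.mk (C c + ∑ i, C (v i) * X i) = _
    rw [eq_comm, Submodule.Quotient.eq]
    exact Ideal.mem_sup_right hcv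
  obtain ⟨c, v, hcv⟩ := exists_lin x
  have hker : (c, v) ∈ LinearMap.ker Ψ := by
    rw [LinearMap.mem_ker]
    change Submodule.Quotient.mk (C c + ∑ i, C (v i) * X i) = _
    rw [Submodule.Quotient.mk_eq_zero]
    have : C c + ∑ i, C (v i) * X i = x - (x - (C c + ∑ i, C (v i) * X i)) := by ring
    rw [this]
    exact sub_mem (Ideal.mem_sup_left (Ideal.mem_span_singleton_self x))
      (Ideal.mem_sup_right hcv)
  have hne : (c, v) ≠ 0 := by
    intro h0
    apply hx2
    rw [Prod.mk_eq_zero] at h0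
    rw [h0.1, h0.2] at hcv
    simpa using hcv
  have h1 := LinearMap.finrank_range_add_finrank_ker Ψ
  rw [LinearMap.range_eq_top.2 hΨ, finrank_top, Module.finrank_prod, Module.finrank_self,
    Module.finrank_fin_fun] at h1
  have h2 : 0 < Module.finrank k (LinearMap.ker Ψ) := by
    rw [Module.finrank_pos_iff]
    exact ⟨⟨⟨(c, v), hker⟩, 0, fun he => hne (congrArg Subtype.val he)⟩⟩
  omega

/-- multiplication by `x` on `S/L` -/
noncomputable def mx (x : MvPolynomial (Fin h) k) (L : Ideal (MvPolynomial (Fin h) k)) :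
    (MvPolynomial (Fin h) k ⧸ L) →ₗ[k] (MvPolynomial (Fin h) k ⧸ L) :=
  (LinearMap.lsmul (MvPolynomial (Fin h) k) (MvPolynomial (Fin h) k ⧸ L) x).restrictScalars k

theorem mx_mk (x : MvPolynomial (Fin h) k) (L : Ideal (MvPolynomial (Fin h) k))
    (y : MvPolynomial (Fin h) k) :
    mx x L (Submodule.Quotient.mk y) = Submodule.Quotient.mk (x * y) := rfl

/-- the image of `A` under multiplication by `x` -/
theorem map_mx (x : MvPolynomial (Fin h) k) (L A : Ideal (MvPolynomial (Fin h) k)) :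
    Submodule.map (mx x L) (img L A) = img L (Ideal.span {x} * A ⊔ L) := by
  ext z
  rw [Submodule.mem_map, mem_img]
  constructor
  · rintro ⟨w, hw, rfl⟩
    obtain ⟨y, hy, rfl⟩ := (mem_img _ _ _).1 hw
    exact ⟨x * y, Ideal.mem_sup_left (Ideal.mul_mem_mul (Ideal.mem_span_singleton_self x) hy),
      (mx_mk x L y).symm⟩
  · rintro ⟨y, hy, rfl⟩
    obtain ⟨a, ha, b, hb, rfl⟩ := Submodule.mem_sup.1 hy
    rw [Ideal.mem_span_singleton_mul] at ha
    obtain ⟨w, hw, rfl⟩ := ha
    refine ⟨Submodule.Quotient.mk w, (mem_img _ _ _).2 ⟨w, hw, rfl⟩, ?_⟩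
    rw [mx_mk, Submodule.Quotient.mk_add, (Submodule.Quotient.mk_eq_zero L).2 hb, add_zero]

/-- `μ(Q) ≤ h` when `m = (x) + Q`, `x ∉ m^2` -/
theorem upper_aux (Q : Ideal (MvPolynomial (Fin h) k)) (x : MvPolynomial (Fin h) k)
    (hx : x ∈ irr k h) (hx2 : x ∉ irr k h ^ 2) (hQ : irr k h ≤ Ideal.span {x} ⊔ Q)
    [Module.Finite k (MvPolynomial (Fin h) k ⧸ (irr k h * Q))] :
    Module.finrank k (MvPolynomial (Fin h) k ⧸ (irr k h * Q)) ≤
      Module.finrank k (MvPolynomial (Fin h) k ⧸ Q) + h := by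
  rw [dq_eq (irr k h * Q) Q Ideal.mul_le_right]
  refine Nat.add_le_add_left ?_ _
  have h1 : img (irr k h * Q) Q ≤ LinearMap.ker (mx x (irr k h * Q)) := by
    intro z hz
    obtain ⟨y, hy, rfl⟩ := (mem_img _ _ _).1 hz
    rw [LinearMap.mem_ker, mx_mk, Submodule.Quotient.mk_eq_zero]
    exact Ideal.mul_mem_mul hx hy
  have h2 := Submodule.finrank_mono h1
  have h3 := LinearMap.finrank_range_add_finrank_ker (mx x (irr k h * Q))
  have h4 : LinearMap.range (mx x (irr k h * Q)) =
      img (irr k h * Q) (Ideal.span {x} * ⊤ ⊔ irr k h * Q) := by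
    rw [← map_mx, LinearMap.range_eq_map]
    congr 1
    ext z
    simp only [Submodule.mem_top, true_iff]
    obtain ⟨y, rfl⟩ := Submodule.Quotient.mk_surjective _ z
    exact (mem_img _ _ _).2 ⟨y, trivial, rfl⟩
  rw [Ideal.mul_top] at h4
  have h5 := dq_eq (irr k h * Q) (Ideal.span {x} ⊔ irr k h * Q) le_sup_right
  have h6 : Ideal.span {x} ⊔ irr k h ^ 2 ≤ Ideal.span {x} ⊔ irr k h * Q := by
    refine sup_le le_sup_left ?_
    rw [pow_two]
    calc irr k h * irr k h ≤ irr k h * (Ideal.span {x} ⊔ Q) := Ideal.mul_mono_right hQ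
      _ = irr k h * Ideal.span {x} ⊔ irr k h * Q := Ideal.mul_sup _ _ _
      _ ≤ _ := sup_le_sup_right Ideal.mul_le_right _
  have fin1 : Module.Finite k (MvPolynomial (Fin h) k ⧸ (Ideal.span {x} ⊔ irr k h ^ 2)) :=
    finite_quot _ 2 le_sup_right
  have h7 := dq_anti _ _ h6
  have h8 := dim_sup_sq_le x hx2
  rw [h4] at h3
  omega

theorem upper (hh : 0 < h) (Q : Ideal (MvPolynomial (Fin h) k)) (x : MvPolynomial (Fin h) k)
    (hx : x ∈ irr k h) (hQ : irr k h ≤ Ideal.span {x} ⊔ Q) (c : ℕ)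
    (hc : irr k h ^ c ≤ Q)
    [Module.Finite k (MvPolynomial (Fin h) k ⧸ (irr k h * Q))] :
    Module.finrank k (MvPolynomial (Fin h) k ⧸ (irr k h * Q)) ≤
      Module.finrank k (MvPolynomial (Fin h) k ⧸ Q) + h := by
  by_cases hx2 : x ∈ irr k h ^ 2
  · -- then `m = Q`
    have h1 : irr k h ≤ irr k h ^ 2 ⊔ Q :=
      hQ.trans (sup_le_sup_right ((Ideal.span_singleton_le_iff_mem _).2 hx2) _)
    have h2 : ∀ n : ℕ, irr k h ≤ irr k h ^ (n + 1) ⊔ Q := by
      intro n
      induction n with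
      | zero => simp
      | succ n ih =>
        refine ih.trans (sup_le ?_ le_sup_right)
        calc irr k h ^ (n + 1) = irr k h ^ n * irr k h := pow_succ _ _
          _ ≤ irr k h ^ n * (irr k h ^ 2 ⊔ Q) := Ideal.mul_mono_right h1
          _ = irr k h ^ n * irr k h ^ 2 ⊔ irr k h ^ n * Q := Ideal.mul_sup _ _ _
          _ ≤ irr k h ^ (n + 1 + 1) ⊔ Q := by
              refine sup_le_sup ?_ Ideal.mul_le_right
              rw [← pow_add]
    have h3 : irr k h ≤ Q := by
      refine (h2 c).trans (sup_le ?_ le_rfl)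
      exact (Ideal.pow_le_pow_right (Nat.le_succ c)).trans hc
    have hX2 : (X ⟨0, hh⟩ : MvPolynomial (Fin h) k) ∉ irr k h ^ 2 := by
      intro hmem
      have := jet_sq _ hmem
      have h4 := congrFun (congrArg Prod.snd this) ⟨0, hh⟩
      change constantCoeff (pderiv ⟨0, hh⟩ (X ⟨0, hh⟩ : MvPolynomial (Fin h) k)) = 0 at h4
      simp at h4
    exact upper_aux Q (X ⟨0, hh⟩) (X_mem_irr _) hX2 (h3.trans le_sup_right)
  · exact upper_aux Q x hx hx2 hQ

/-- the lower bound for the socle -/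
theorem soc_lower (I J : Ideal (MvPolynomial (Fin h) k)) (x : MvPolynomial (Fin h) k)
    (hI : I ≤ irr k h) (hJ : J ≤ irr k h) (hx : x ∈ irr k h)
    (hIJ : irr k h ≤ Ideal.span {x} ⊔ (I ⊔ J)) (c : ℕ) (hc : irr k h ^ c ≤ I * J)
    (hh : 0 < h) :
    Module.finrank k (MvPolynomial (Fin h) k ⧸ (irr k h * I)) +
      Module.finrank k (MvPolynomial (Fin h) k ⧸ (irr k h * J)) ≤
    Module.finrank k (MvPolynomial (Fin h) k ⧸ I) +
      Module.finrank k (MvPolynomial (Fin h) k ⧸ J) + h + Module.finrank k (soc (I * J)) := by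
  set A := I ⊓ J with hA
  have hIJI : I * J ≤ I := Ideal.mul_le_left
  have hIJJ : I * J ≤ J := Ideal.mul_le_right
  have hIJA : I * J ≤ A := le_inf hIJI hIJJ
  have hcI : irr k h ^ c ≤ I := hc.trans hIJI
  have hcJ : irr k h ^ c ≤ J := hc.trans hIJJ
  have hmI : irr k h ^ (c + 1) ≤ irr k h * I := by
    rw [pow_succ']; exact Ideal.mul_mono_right hcI
  have hmJ : irr k h ^ (c + 1) ≤ irr k h * J := by
    rw [pow_succ']; exact Ideal.mul_mono_right hcJ
  have fIJ : Module.Finite k (MvPolynomial (Fin h) k ⧸ (I * J)) := finite_quot _ c hc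
  have fA : Module.Finite k (MvPolynomial (Fin h) k ⧸ (I ⊓ J)) := finite_quot _ c (hc.trans hIJA)
  have fmm : Module.Finite k (MvPolynomial (Fin h) k ⧸ (irr k h * I ⊓ irr k h * J)) :=
    finite_quot _ (c + 1) (le_inf hmI hmJ)
  have fmQ : Module.Finite k (MvPolynomial (Fin h) k ⧸ (irr k h * (I ⊔ J))) := by
    refine finite_quot _ (c + 1) ?_
    rw [pow_succ']
    exact Ideal.mul_mono_right (hcI.trans le_sup_left)
  have d1 := dq_modular I J
  rw [← hA] at d1
  have d2 := dq_modular (irr k h * I) (irr k h * J)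
  rw [← Ideal.mul_sup] at d2
  have d3 := upper hh (I ⊔ J) x hx hIJ c (hcI.trans le_sup_left)
  -- the module `N = A/IJ`
  have hmul : Submodule.map (mx x (I * J)) (img (I * J) A) ≤ img (I * J) A := by
    rintro z ⟨w, hw, rfl⟩
    obtain ⟨y, hy, rfl⟩ := (mem_img _ _ _).1 hw
    exact (mem_img _ _ _).2 ⟨x * y, Ideal.mul_mem_left _ _ hy, rfl⟩
  let T : img (I * J) A →ₗ[k] (MvPolynomial (Fin h) k ⧸ (I * J)) :=
    (mx x (I * J)).comp (img (I * J) A).subtype
  have hTrange : LinearMap.range T = img (I * J) (Ideal.span {x} * A ⊔ I * J) := by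
    rw [← map_mx, LinearMap.range_comp, Submodule.range_subtype]
  have hTker : Submodule.map (img (I * J) A).subtype (LinearMap.ker T) ≤ soc (I * J) := by
    rintro z ⟨w, hw, rfl⟩
    have hw0 : T w = 0 := hw
    obtain ⟨y, hy, hyw⟩ := (mem_img _ _ _).1 w.2
    change (w : MvPolynomial (Fin h) k ⧸ (I * J)) ∈ soc (I * J)
    rw [mem_soc]
    intro i
    have hxy : x * y ∈ I * J := by
      rw [← Submodule.Quotient.mk_eq_zero, ← mx_mk]
      rw [hyw]
      exact hw0
    rw [← hyw, ← Submodule.Quotient.mk_smul, Submodule.Quotient.mk_eq_zero, smul_eq_mul]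
    obtain ⟨s, hs, t, ht, hst⟩ := Submodule.mem_sup.1 (hIJ (X_mem_irr (k := k) i))
    obtain ⟨a, ha, b, hb, hab⟩ := Submodule.mem_sup.1 ht
    obtain ⟨r, rfl⟩ := Ideal.mem_span_singleton'.1 hs
    rw [← hst, ← hab]
    have e : (r * x + (a + b)) * y = r * (x * y) + (a * y + y * b) := by ring
    rw [e]
    exact add_mem (Ideal.mul_mem_left _ _ hxy)
      (add_mem (Ideal.mul_mem_mul ha hy.2) (Ideal.mul_mem_mul hy.1 hb))
  have e1 := LinearMap.finrank_range_add_finrank_ker T
  have e2 : Module.finrank k (LinearMap.ker T) ≤ Module.finrank k (soc (I * J)) := by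
    have := Submodule.finrank_mono hTker
    rwa [Submodule.finrank_map_subtype_eq] at this
  have e3 := dq_eq (I * J) A hIJA
  have e4 := dq_eq (I * J) (Ideal.span {x} * A ⊔ I * J) le_sup_right
  have e5 : Ideal.span {x} * A ⊔ I * J ≤ irr k h * I ⊓ irr k h * J := by
    refine sup_le ?_ ?_
    · refine le_inf ?_ ?_
      · exact Ideal.mul_mono ((Ideal.span_singleton_le_iff_mem _).2 hx) inf_le_left
      · exact Ideal.mul_mono ((Ideal.span_singleton_le_iff_mem _).2 hx) inf_le_right
    · refine le_inf ?_ ?_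
      · rw [mul_comm]; exact Ideal.mul_mono_left hJ
      · exact Ideal.mul_mono_left hI
  have e5' : Module.finrank k (MvPolynomial (Fin h) k ⧸ (irr k h * I ⊓ irr k h * J)) ≤
      Module.finrank k (MvPolynomial (Fin h) k ⧸ (Ideal.span {x} * A ⊔ I * J)) := by
    have f1 : Module.Finite k (MvPolynomial (Fin h) k ⧸ (Ideal.span {x} * A ⊔ I * J)) :=
      finite_quot _ c (hc.trans le_sup_right)
    exact dq_anti _ _ e5
  rw [hTrange] at e1
  omega

end Pool.Agent.H6.CMT
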