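import Mathlib

/-! Dedekind-Mertens lemma. -/

namespace Pool.Agent.H6.CMT

open Polynomial

section DM

variable {S : Type*} [CommRing S]

theorem content_add (p q : S[X]) :
    (p + q).contentIdeal ≤ p.contentIdeal ⊔ q.contentIdeal := by
  rw [contentIdeal_def, Ideal.span_le]
  intro r hr
  simp only [Finset.mem_coe, mem_coeffs_iff] at hr
  obtain ⟨n, _, rfl⟩ := hr
  rw [coeff_add]
  exact Submodule.add_mem_sup (coeff_mem_contentIdeal p n) (coeff_mem_contentIdeal q n)

theorem content_le_iff (p : S[X]) (I : Ideal S) :
    p.contentIdeal ≤ I ↔ ∀ n, p.coeff n ∈ I := by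
  constructor
  · intro h n
    exact h (coeff_mem_contentIdeal p n)
  · intro h
    rw [contentIdeal_def, Ideal.span_le]
    intro r hr
    simp only [Finset.mem_coe, mem_coeffs_iff] at hr
    obtain ⟨n, _, rfl⟩ := hr
    exact h n

theorem span_mul_content (b : S) (p : S[X]) :
    Ideal.span {b} * p.contentIdeal ≤ (C b * p).contentIdeal := by
  rw [contentIdeal_def p, Ideal.span_mul_span', Ideal.span_le]
  rintro r ⟨x, hx, y, hy, rfl⟩
  simp only [Set.mem_singleton_iff] at hx
  subst hx
  simp only [Finset.mem_coe, mem_coeffs_iff] at hy
  obtain ⟨n, _, rfl⟩ := hy
  have := coeff_mem_contentIdeal (C x * p) n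
  simpa [coeff_C_mul] using this

theorem sup_pow_succ_le (A B : Ideal S) (m : ℕ) :
    (A ⊔ B) ^ (m + 1) ≤ A ^ (m + 1) ⊔ B * (A ⊔ B) ^ m := by
  induction m with
  | zero => simp
  | succ m ih =>
    calc (A ⊔ B) ^ (m + 2) = (A ⊔ B) * (A ⊔ B) ^ (m + 1) := by rw [pow_succ']
      _ = A * (A ⊔ B) ^ (m + 1) ⊔ B * (A ⊔ B) ^ (m + 1) := by rw [Ideal.sup_mul]
      _ ≤ A * (A ^ (m + 1) ⊔ B * (A ⊔ B) ^ m) ⊔ B * (A ⊔ B) ^ (m + 1) :=
          sup_le_sup_right (Ideal.mul_mono_right ih) _
      _ = A ^ (m + 2) ⊔ A * (B * (A ⊔ B) ^ m) ⊔ B * (A ⊔ B) ^ (m + 1) := by
          rw [Ideal.mul_sup, ← pow_succ']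
      _ ≤ A ^ (m + 2) ⊔ B * (A ⊔ B) ^ (m + 1) := by
          rw [sup_assoc]
          refine sup_le_sup_left ?_ _
          refine sup_le ?_ le_rfl
          rw [← mul_assoc, mul_comm A B, mul_assoc]
          refine Ideal.mul_mono_right ?_
          rw [pow_succ']
          exact Ideal.mul_mono_left le_sup_left

/-- Dedekind-Mertens. -/
theorem dedekind_mertens : ∀ (N : ℕ) (G F : S[X]), F.natDegree ≤ N →
    G.contentIdeal ^ (N + 1) * F.contentIdeal ≤ G.contentIdeal ^ N * (G * F).contentIdeal := by
  intro N
  induction N with
  | zero =>
    intro G F hF
    obtain ⟨a, rfl⟩ : ∃ a, F = C a := ⟨F.coeff 0, eq_C_of_natDegree_le_zero hF⟩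
    rw [pow_zero, Ideal.one_eq_top, Ideal.top_mul, zero_add, pow_one, contentIdeal_C, mul_comm,
      mul_comm G]
    exact span_mul_content a G
  | succ N ihN =>
    have inner : ∀ (n : ℕ) (G : S[X]), G.degree < n → ∀ F : S[X], F.natDegree ≤ N + 1 →
        G.contentIdeal ^ (N + 2) * F.contentIdeal ≤
          G.contentIdeal ^ (N + 1) * (G * F).contentIdeal := by
      intro n
      induction n with
      | zero =>
        intro G hG F _
        have : G = 0 := by
          rw [← degree_eq_bot]
          by_contra hne
          have := degree_eq_natDegree (p := G) (by rintro rfl; simp at hne)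
          rw [this] at hG
          norm_cast at hG
        subst this
        simp
      | succ n ihn =>
        intro G hG F hF
        set b := G.coeff n with hb
        set a := F.coeff (N + 1) with ha
        set G' := G - monomial n b with hG'
        set F' := F - monomial (N + 1) a with hF'
        have hGn : G.natDegree ≤ n := by
          rw [natDegree_le_iff_coeff_eq_zero]
          intro m hm
          exact (degree_lt_iff_coeff_zero _ _).1 hG m (by omega)
        have hG'deg : G'.degree < n := by
          rw [degree_lt_iff_coeff_zero]
          intro m hm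
          rw [hG', coeff_sub, coeff_monomial]
          split_ifs with h
          · rw [hb, h, sub_self]
          · rw [sub_zero]
            exact coeff_eq_zero_of_natDegree_lt (lt_of_le_of_lt hGn (lt_of_le_of_ne hm h))
        have hF'deg : F'.natDegree ≤ N := by
          rw [natDegree_le_iff_coeff_eq_zero]
          intro m hm
          rw [hF', coeff_sub, coeff_monomial]
          split_ifs with h
          · rw [ha, h, sub_self]
          · rw [sub_zero]
            exact coeff_eq_zero_of_natDegree_lt (by omega)
        have hba : b * a ∈ (G * F).contentIdeal := by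
          have := coeff_mem_contentIdeal (G * F) (n + (N + 1))
          rwa [coeff_mul_add_eq_of_natDegree_le hGn hF] at this
        have hbG : Ideal.span {b} ≤ G.contentIdeal := by
          rw [Ideal.span_singleton_le_iff_mem]
          exact coeff_mem_contentIdeal G n
        -- step (1)
        have h1 : Ideal.span {b} * (G.contentIdeal ^ (N + 1) * F.contentIdeal) ≤
            G.contentIdeal ^ (N + 1) * (G * F).contentIdeal := by
          have hFle : F.contentIdeal ≤ F'.contentIdeal ⊔ Ideal.span {a} := by
            have : F = F' + monomial (N + 1) a := by rw [hF']; ring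
            calc F.contentIdeal = (F' + monomial (N + 1) a).contentIdeal := by rw [← this]
              _ ≤ _ := content_add _ _
              _ = _ := by rw [contentIdeal_monomial]
          have hGbF' : (G * (C b * F')).contentIdeal ≤
              G.contentIdeal * (G * F).contentIdeal := by
            have e : G * (C b * F') = C b * (G * F) + monomial (N + 1) (- (b * a)) * G := by
              rw [hF']
              have : (monomial (N + 1) (-(b * a)) : S[X]) = - (C b * monomial (N + 1) a) := by
                rw [C_mul_monomial, map_neg]
              rw [this]; ring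
            rw [e]
            refine (content_add _ _).trans (sup_le ?_ ?_)
            · refine (contentIdeal_mul_le_mul_contentIdeal _ _).trans ?_
              rw [contentIdeal_C]
              exact Ideal.mul_mono_left hbG
            · refine (contentIdeal_mul_le_mul_contentIdeal _ _).trans ?_
              rw [contentIdeal_monomial, mul_comm]
              refine Ideal.mul_mono_right ?_
              rw [Ideal.span_singleton_le_iff_mem]
              exact neg_mem hba
          calc Ideal.span {b} * (G.contentIdeal ^ (N + 1) * F.contentIdeal)
              ≤ Ideal.span {b} * (G.contentIdeal ^ (N + 1) * (F'.contentIdeal ⊔ Ideal.span {a})) :=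
                Ideal.mul_mono_right (Ideal.mul_mono_right hFle)
            _ = G.contentIdeal ^ (N + 1) * (Ideal.span {b} * F'.contentIdeal) ⊔
                G.contentIdeal ^ (N + 1) * (Ideal.span {b} * Ideal.span {a}) := by
                rw [Ideal.mul_sup, Ideal.mul_sup]
                congr 1 <;> ring
            _ ≤ G.contentIdeal ^ (N + 1) * (G * F).contentIdeal := by
                refine sup_le ?_ ?_
                · calc G.contentIdeal ^ (N + 1) * (Ideal.span {b} * F'.contentIdeal)
                      ≤ G.contentIdeal ^ (N + 1) * (C b * F').contentIdeal :=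
                        Ideal.mul_mono_right (span_mul_content b F')
                    _ ≤ G.contentIdeal ^ N * (G * (C b * F')).contentIdeal := by
                        apply ihN
                        exact (natDegree_C_mul_le b F').trans hF'deg
                    _ ≤ G.contentIdeal ^ N * (G.contentIdeal * (G * F).contentIdeal) :=
                        Ideal.mul_mono_right hGbF'
                    _ = G.contentIdeal ^ (N + 1) * (G * F).contentIdeal := by
                        rw [pow_succ]; ring
                · refine Ideal.mul_mono_right ?_
                  rw [Ideal.span_singleton_mul_span_singleton,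
                    Ideal.span_singleton_le_iff_mem]
                  exact hba
        have hGsup : G.contentIdeal ≤ G'.contentIdeal ⊔ Ideal.span {b} := by
          have : G = G' + monomial n b := by rw [hG']; ring
          calc G.contentIdeal = (G' + monomial n b).contentIdeal := by rw [← this]
            _ ≤ _ := content_add _ _
            _ = _ := by rw [contentIdeal_monomial]
        have hG'le : G'.contentIdeal ≤ G.contentIdeal := by
          rw [content_le_iff]
          intro m
          rw [hG', coeff_sub, coeff_monomial]
          split_ifs with h
          · rw [hb, h, sub_self]; exact zero_mem _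
          · rw [sub_zero]; exact coeff_mem_contentIdeal G m
        have hsupeq : G'.contentIdeal ⊔ Ideal.span {b} = G.contentIdeal :=
          le_antisymm (sup_le hG'le hbG) hGsup
        have h2 : G'.contentIdeal ^ (N + 2) * F.contentIdeal ≤
            G.contentIdeal ^ (N + 1) * (G * F).contentIdeal := by
          have hG'F : (G' * F).contentIdeal ≤
              (G * F).contentIdeal ⊔ Ideal.span {b} * F.contentIdeal := by
            have e : G' * F = G * F + monomial n (-b) * F := by
              rw [hG', map_neg]; ring
            rw [e]
            refine (content_add _ _).trans (sup_le_sup_left ?_ _)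
            refine (contentIdeal_mul_le_mul_contentIdeal _ _).trans ?_
            rw [contentIdeal_monomial, Ideal.span_singleton_neg]
          calc G'.contentIdeal ^ (N + 2) * F.contentIdeal
              ≤ G'.contentIdeal ^ (N + 1) * (G' * F).contentIdeal := ihn G' hG'deg F hF
            _ ≤ G.contentIdeal ^ (N + 1) *
                ((G * F).contentIdeal ⊔ Ideal.span {b} * F.contentIdeal) :=
                Ideal.mul_mono (Ideal.pow_right_mono hG'le _) hG'F
            _ = G.contentIdeal ^ (N + 1) * (G * F).contentIdeal ⊔
                Ideal.span {b} * (G.contentIdeal ^ (N + 1) * F.contentIdeal) := by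
                rw [Ideal.mul_sup]
                congr 1
                ring
            _ ≤ _ := sup_le le_rfl h1
        calc G.contentIdeal ^ (N + 2) * F.contentIdeal
            = (G'.contentIdeal ⊔ Ideal.span {b}) ^ (N + 1 + 1) * F.contentIdeal := by rw [hsupeq]
          _ ≤ (G'.contentIdeal ^ (N + 1 + 1) ⊔
                Ideal.span {b} * (G'.contentIdeal ⊔ Ideal.span {b}) ^ (N + 1)) *
                F.contentIdeal := Ideal.mul_mono_left (sup_pow_succ_le _ _ _)
          _ = G'.contentIdeal ^ (N + 2) * F.contentIdeal ⊔
                Ideal.span {b} * (G.contentIdeal ^ (N + 1) * F.contentIdeal) := by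
              rw [hsupeq, Ideal.sup_mul, mul_assoc]
          _ ≤ _ := sup_le h2 h1
    intro G F hF
    exact inner (G.natDegree + 1) G (by
      rcases eq_or_ne G 0 with rfl | h
      · simp
      · rw [degree_eq_natDegree h]; exact_mod_cast Nat.lt_succ_self _) F hF

end DM

end Pool.Agent.H6.CMT
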