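import Pool.Agent.H6.CMT.Seq

/-! Definitions: the homogeneous maximal ideal and the Cohen-Macaulay type of an Artinian quotient
of a polynomial ring; the socle. -/

namespace Pool.Agent.H6.CMT

open MvPolynomial

variable (k : Type*) [Field k] (h : ℕ)

/-- The ideal `(x_1, ..., x_h)` of `k[x_1, ..., x_h]`. -/
noncomputable def irr : Ideal (MvPolynomial (Fin h) k) := Ideal.span (Set.range X)

variable {k h}

theorem X_mem_irr (i : Fin h) : (X i : MvPolynomial (Fin h) k) ∈ irr k h :=
  Ideal.subset_span ⟨i, rfl⟩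

/-- `dim_k Hom_S(S/m, S/L)`, the Cohen-Macaulay type of `S/L` when `L` is `m`-primary. -/
noncomputable def cmType (L : Ideal (MvPolynomial (Fin h) k)) : ℕ :=
  Module.finrank k ((MvPolynomial (Fin h) k ⧸ irr k h) →ₗ[MvPolynomial (Fin h) k]
    (MvPolynomial (Fin h) k ⧸ L))

/-- the socle of `S/L` -/
noncomputable def soc (L : Ideal (MvPolynomial (Fin h) k)) :
    Submodule k (MvPolynomial (Fin h) k ⧸ L) where
  carrier := {x | ∀ i : Fin h, (X i : MvPolynomial (Fin h) k) • x = 0}
  add_mem' := by
    intro a b ha hb i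
    rw [smul_add, ha i, hb i, add_zero]
  zero_mem' := by intro i; simp
  smul_mem' := by
    intro c x hx i
    rw [smul_comm, hx i, smul_zero]

theorem mem_soc (L : Ideal (MvPolynomial (Fin h) k)) (x : MvPolynomial (Fin h) k ⧸ L) :
    x ∈ soc L ↔ ∀ i : Fin h, (X i : MvPolynomial (Fin h) k) • x = 0 := Iff.rfl

/-- evaluation at `1` -/
noncomputable def evalOne (L : Ideal (MvPolynomial (Fin h) k)) :
    ((MvPolynomial (Fin h) k ⧸ irr k h) →ₗ[MvPolynomial (Fin h) k]
      (MvPolynomial (Fin h) k ⧸ L)) →ₗ[k] (MvPolynomial (Fin h) k ⧸ L) where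
  toFun φ := φ (Submodule.Quotient.mk 1)
  map_add' _ _ := rfl
  map_smul' _ _ := rfl

theorem evalOne_mem (L : Ideal (MvPolynomial (Fin h) k))
    (φ : (MvPolynomial (Fin h) k ⧸ irr k h) →ₗ[MvPolynomial (Fin h) k]
      (MvPolynomial (Fin h) k ⧸ L)) : evalOne L φ ∈ soc L := by
  rw [mem_soc]
  intro i
  change (X i : MvPolynomial (Fin h) k) • φ (Submodule.Quotient.mk 1) = 0
  rw [← map_smul]
  have : (X i : MvPolynomial (Fin h) k) • (Submodule.Quotient.mk (p := irr k h) 1) = 0 := by
    rw [← Submodule.Quotient.mk_smul, Submodule.Quotient.mk_eq_zero, smul_eq_mul, mul_one]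
    exact Ideal.subset_span ⟨i, rfl⟩
  rw [this, map_zero]

/-- evaluation at `1` identifies `Hom_S(S/m, S/L)` with the socle -/
noncomputable def homEquiv (L : Ideal (MvPolynomial (Fin h) k)) :
    ((MvPolynomial (Fin h) k ⧸ irr k h) →ₗ[MvPolynomial (Fin h) k]
      (MvPolynomial (Fin h) k ⧸ L)) ≃ₗ[k] soc L :=
  LinearEquiv.ofBijective ((evalOne L).codRestrict (soc L) (evalOne_mem L))
    (by
      constructor
      · intro φ ψ hφψ
        have h1 : φ (Submodule.Quotient.mk 1) = ψ (Submodule.Quotient.mk 1) :=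
          congrArg Subtype.val hφψ
        apply LinearMap.ext
        intro x
        obtain ⟨y, rfl⟩ := Submodule.Quotient.mk_surjective _ x
        have : (Submodule.Quotient.mk y : MvPolynomial (Fin h) k ⧸ irr k h) =
            y • Submodule.Quotient.mk 1 := by
          rw [← Submodule.Quotient.mk_smul, smul_eq_mul, mul_one]
        rw [this, map_smul, map_smul, h1]
      · rintro ⟨x, hx⟩
        rw [mem_soc] at hx
        have hle : irr k h ≤ LinearMap.ker (LinearMap.toSpanSingleton (MvPolynomial (Fin h) k)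
            (MvPolynomial (Fin h) k ⧸ L) x) := by
          rw [irr, Ideal.span_le]
          rintro _ ⟨i, rfl⟩
          exact hx i
        refine ⟨Submodule.liftQ (irr k h) _ hle, ?_⟩
        apply Subtype.ext
        change (Submodule.liftQ (irr k h) _ hle) (Submodule.Quotient.mk 1) = x
        rw [Submodule.liftQ_apply, LinearMap.toSpanSingleton_apply, one_smul])

theorem cmType_eq (L : Ideal (MvPolynomial (Fin h) k)) :
    cmType L = Module.finrank k (soc L) := (homEquiv L).finrank_eq

/-- multiplication by `a` as a map `S/J → S/L` -/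
noncomputable def mulQ (a : MvPolynomial (Fin h) k) (J L : Ideal (MvPolynomial (Fin h) k))
    (H : ∀ b ∈ J, a * b ∈ L) :
    (MvPolynomial (Fin h) k ⧸ J) →ₗ[MvPolynomial (Fin h) k] (MvPolynomial (Fin h) k ⧸ L) :=
  Submodule.mapQ J L (LinearMap.mulLeft (MvPolynomial (Fin h) k) a) (fun b hb => H b hb)

theorem mulQ_mk (a : MvPolynomial (Fin h) k) (J L : Ideal (MvPolynomial (Fin h) k))
    (H : ∀ b ∈ J, a * b ∈ L) (b : MvPolynomial (Fin h) k) :
    mulQ a J L H (Submodule.Quotient.mk b) = Submodule.Quotient.mk (a * b) := rfl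

theorem mulQ_soc (a : MvPolynomial (Fin h) k) (J L : Ideal (MvPolynomial (Fin h) k))
    (H : ∀ b ∈ J, a * b ∈ L) (x : MvPolynomial (Fin h) k ⧸ J) (hx : x ∈ soc J) :
    mulQ a J L H x ∈ soc L := by
  rw [mem_soc] at hx ⊢
  intro i
  rw [← map_smul, hx i, map_zero]

/-- the restriction of `mulQ` to the socles -/
noncomputable def mulSoc (a : MvPolynomial (Fin h) k) (J L : Ideal (MvPolynomial (Fin h) k))
    (H : ∀ b ∈ J, a * b ∈ L) : soc J →ₗ[k] soc L :=
  ((mulQ a J L H).restrictScalars k).restrict (fun x hx => mulQ_soc a J L H x hx)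

theorem mulSoc_coe (a : MvPolynomial (Fin h) k) (J L : Ideal (MvPolynomial (Fin h) k))
    (H : ∀ b ∈ J, a * b ∈ L) (x : soc J) :
    ((mulSoc a J L H x : soc L) : MvPolynomial (Fin h) k ⧸ L) = mulQ a J L H x := rfl

/-- `S/L` is finite-dimensional if `L` contains a power of `m` -/
theorem finite_quot (L : Ideal (MvPolynomial (Fin h) k)) (c : ℕ) (hc : irr k h ^ c ≤ L) :
    Module.Finite k (MvPolynomial (Fin h) k ⧸ L) := by
  have hint : Algebra.IsIntegral k (MvPolynomial (Fin h) k ⧸ L) := by
    constructor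
    intro x
    obtain ⟨y, rfl⟩ := Ideal.Quotient.mk_surjective x
    induction y using MvPolynomial.induction_on with
    | C a =>
      have : (Ideal.Quotient.mk L) (C a) = algebraMap k (MvPolynomial (Fin h) k ⧸ L) a := rfl
      rw [this]
      exact isIntegral_algebraMap
    | add p q hp hq => rw [map_add]; exact hp.add hq
    | mul_X p i hp =>
      rw [map_mul]
      have hX : IsIntegral k ((Ideal.Quotient.mk L) (X i)) := by
        refine ⟨Polynomial.X ^ c, Polynomial.monic_X_pow c, ?_⟩
        simp only [Polynomial.eval₂_pow, Polynomial.eval₂_X]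
        rw [← map_pow, Ideal.Quotient.eq_zero_iff_mem]
        exact hc (Ideal.pow_mem_pow (X_mem_irr i) c)
      exact hp.mul hX
  have hft : Algebra.FiniteType k (MvPolynomial (Fin h) k ⧸ L) := inferInstance
  exact Algebra.IsIntegral.finite

end Pool.Agent.H6.CMT
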