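import Pool.Agent.H6.CMT.Main

/-! `dim_k S/m^2 ≥ h + 1`. -/

namespace Pool.Agent.H6.CMT

open MvPolynomial

variable {k : Type*} [Field k] {h : ℕ}

/-- the value at `0` and the linear coefficients -/
noncomputable def jet : MvPolynomial (Fin h) k →ₗ[k] (k × (Fin h → k)) where
  toFun y := (constantCoeff y, fun i => constantCoeff (pderiv i y))
  map_add' a b := by
    refine Prod.ext ?_ ?_
    · simp
    · funext i; simp
  map_smul' c a := by
    refine Prod.ext ?_ ?_
    · simp [MvPolynomial.smul_eq_C_mul]
    · funext i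
      simp only [RingHom.id_apply, Prod.smul_snd, Pi.smul_apply]
      rw [Derivation.map_smul, MvPolynomial.smul_eq_C_mul, map_mul, constantCoeff_C, smul_eq_mul]

theorem jet_sq (y : MvPolynomial (Fin h) k) (hy : y ∈ irr k h ^ 2) : jet y = 0 := by
  rw [pow_two] at hy
  refine Submodule.mul_induction_on hy ?_ ?_
  · intro a ha b hb
    have ha' := constantCoeff_of_mem a ha
    have hb' := constantCoeff_of_mem b hb
    refine Prod.ext ?_ ?_
    · change constantCoeff (a * b) = 0
      rw [map_mul, ha', zero_mul]
    · funext i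
      change constantCoeff (pderiv i (a * b)) = 0
      rw [Derivation.leibniz, map_add, smul_eq_mul, smul_eq_mul, map_mul, map_mul, ha', hb']
      simp
  · intro a b ha hb
    rw [map_add, ha, hb, add_zero]

theorem jet_surjective : Function.Surjective (jet (k := k) (h := h)) := by
  rintro ⟨c, v⟩
  refine ⟨C c + ∑ i, C (v i) * X i, ?_⟩
  refine Prod.ext ?_ ?_
  · change constantCoeff (C c + ∑ i, C (v i) * X i) = c
    simp
  · funext j
    change constantCoeff (pderiv j (C c + ∑ i, C (v i) * X i)) = v j
    rw [map_add, map_sum, map_add, map_sum, pderiv_C, map_zero, zero_add]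
    rw [Finset.sum_eq_single j]
    · rw [Derivation.leibniz]
      simp
    · intro i _ hij
      rw [Derivation.leibniz, pderiv_X_of_ne hij]
      simp
    · intro hj
      exact absurd (Finset.mem_univ j) hj

theorem dim_sq (J : Ideal (MvPolynomial (Fin h) k)) (hJ : J ≤ irr k h ^ 2)
    [Module.Finite k (MvPolynomial (Fin h) k ⧸ J)] :
    h + 1 ≤ Module.finrank k (MvPolynomial (Fin h) k ⧸ J) := by
  let Φ : (MvPolynomial (Fin h) k ⧸ J) →ₗ[k] (k × (Fin h → k)) :=
    (Submodule.restrictScalars k J).liftQ jet (by
      intro b hb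
      exact jet_sq b (hJ hb))
  have hΦ : Function.Surjective Φ := by
    intro z
    obtain ⟨y, hy⟩ := jet_surjective z
    exact ⟨Submodule.Quotient.mk y, hy⟩
  have h1 := LinearMap.finrank_le_finrank_of_surjective hΦ
  rw [Module.finrank_prod, Module.finrank_self, Module.finrank_fin_fun] at h1
  omega

end Pool.Agent.H6.CMT
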