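import Pool.Agent.H6.CMT.Dim

/-! Height of the irrelevant ideal, `μ(I) ≥ h` for `m`-primary `I`. -/

namespace Pool.Agent.H6.CMT

open MvPolynomial

variable {k : Type*} [Field k] {h : ℕ}

/-- kill the variables with index `< i` -/
noncomputable def killV (k : Type*) [Field k] (h i : ℕ) :
    MvPolynomial (Fin h) k →ₐ[k] MvPolynomial (Fin h) k :=
  aeval (fun j : Fin h => if (j : ℕ) < i then 0 else X j)

theorem killV_X (i : ℕ) (j : Fin h) :
    killV k h i (X j) = if (j : ℕ) < i then 0 else X j := by
  rw [killV, aeval_X]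

theorem killV_comp (i : ℕ) : (killV k h (i + 1)).comp (killV k h i) = killV k h (i + 1) := by
  apply MvPolynomial.algHom_ext
  intro j
  rw [AlgHom.comp_apply, killV_X, killV_X]
  split_ifs with h1 h2 h2
  · simp
  · omega
  · rw [killV_X, if_pos h2]
  · rw [killV_X, if_neg h2]

theorem ker_killV_lt (i : ℕ) (hi : i < h) :
    RingHom.ker (killV k h i) < RingHom.ker (killV k h (i + 1)) := by
  refine lt_of_le_of_ne ?_ ?_
  · intro y hy
    rw [RingHom.mem_ker] at hy ⊢
    rw [← killV_comp, AlgHom.comp_apply, hy, map_zero]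
  · intro he
    have h1 : (X ⟨i, hi⟩ : MvPolynomial (Fin h) k) ∈ RingHom.ker (killV k h (i + 1)) := by
      rw [RingHom.mem_ker, killV_X]
      simp
    rw [← he, RingHom.mem_ker, killV_X] at h1
    simp only [lt_self_iff_false, if_false] at h1
    exact X_ne_zero _ h1

theorem height_ker_killV (i : ℕ) (hi : i ≤ h) :
    (i : ℕ∞) ≤ (RingHom.ker (killV k h i)).height := by
  induction i with
  | zero => simp
  | succ i ih =>
    have h1 := ih (by omega)
    have hp1 : (RingHom.ker (killV k h i)).IsPrime := RingHom.ker_isPrime _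
    have hp2 : (RingHom.ker (killV k h (i + 1))).IsPrime := RingHom.ker_isPrime _
    have h2 := Ideal.height_add_one_le_of_lt_of_isPrime (ker_killV_lt (k := k) (h := h) i (by omega))
    calc ((i + 1 : ℕ) : ℕ∞) = (i : ℕ∞) + 1 := by push_cast; rfl
      _ ≤ (RingHom.ker (killV k h i)).height + 1 := by gcongr
      _ ≤ _ := h2

theorem ker_killV_le : RingHom.ker (killV k h h) ≤ irr k h := by
  intro y hy
  rw [RingHom.mem_ker] at hy
  have h1 : ∀ z : MvPolynomial (Fin h) k, killV k h h z = C (constantCoeff z) := by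
    intro z
    induction z using MvPolynomial.induction_on with
    | C a => simp [killV]
    | add p q hp hq => rw [map_add, hp, hq, map_add, map_add]
    | mul_X p j _ =>
      rw [map_mul, killV_X, if_pos j.2, mul_zero, map_mul, constantCoeff_X, mul_zero, map_zero]
  rw [h1] at hy
  have h2 := sub_C_mem y
  rwa [hy, sub_zero] at h2

theorem height_irr : (h : ℕ∞) ≤ (irr k h).height :=
  (height_ker_killV (k := k) h le_rfl).trans (Ideal.height_mono ker_killV_le)

theorem irr_isPrime : (irr k h).IsPrime := by
  have : irr k h = RingHom.ker (constantCoeff (R := k) (σ := Fin h)) := by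
    apply le_antisymm
    · intro y hy
      rw [RingHom.mem_ker]
      exact constantCoeff_of_mem y hy
    · intro y hy
      rw [RingHom.mem_ker] at hy
      have h2 := sub_C_mem y
      rwa [hy, map_zero, sub_zero] at h2
  rw [this]
  exact RingHom.ker_isPrime _

/-- If an `m`-primary ideal `I` is `(f) + mI`, then `f` has at least `h` elements. -/
theorem card_gen (I : Ideal (MvPolynomial (Fin h) k)) (hI : I ≤ irr k h) (c : ℕ)
    (hc : irr k h ^ c ≤ I) (s : Finset (MvPolynomial (Fin h) k)) (hs : ∀ y ∈ s, y ∈ I)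
    (hgen : I ≤ Ideal.span (s : Set (MvPolynomial (Fin h) k)) ⊔ irr k h * I) :
    h ≤ s.card := by
  have hprime : (irr k h).IsPrime := irr_isPrime
  obtain ⟨g, hg1, hg2⟩ := Submodule.exists_sub_one_mem_and_smul_le_of_fg_of_le_sup
    (I := irr k h) (N := Ideal.span (s : Set (MvPolynomial (Fin h) k))) (N' := I) (P := I)
    (IsNoetherian.noetherian I) le_rfl (by simpa [smul_eq_mul] using hgen)
  have hgm : g ∉ irr k h := by
    intro hg
    have : (1 : MvPolynomial (Fin h) k) ∈ irr k h := by
      have := sub_mem hg hg1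
      simpa using this
    exact hprime.ne_top ((Ideal.eq_top_iff_one _).2 this)
  have hmin : irr k h ∈ (Ideal.span (s : Set (MvPolynomial (Fin h) k))).minimalPrimes := by
    refine ⟨⟨hprime, (Ideal.span_le.2 (fun y hy => hs y hy)).trans hI⟩, ?_⟩
    rintro q ⟨hq, hsq⟩ hqm
    have hIq : I ≤ q := by
      intro y hy
      have h1 : g * y ∈ q := hsq (hg2 (Submodule.smul_mem_pointwise_smul y g I hy))
      rcases hq.mem_or_mem h1 with h2 | h2
      · exact absurd (hqm h2) hgm
      · exact h2
    exact hq.le_of_pow_le (hc.trans hIq)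
  have h1 := Ideal.height_le_card_of_mem_minimalPrimes_span_finset hmin
  have h2 := (height_irr (k := k) (h := h)).trans h1
  exact_mod_cast h2

end Pool.Agent.H6.CMT
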