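import Pool.Agent.H6.CMT.Defs

/-! The two comparison theorems. -/

namespace Pool.Agent.H6.CMT

open MvPolynomial

variable {k : Type*} [Field k] {h : ℕ}

/-- `t(S/J) ≤ t(S/KJ)` -/
theorem soc_le_mul (K J : Ideal (MvPolynomial (Fin h) k)) (hstab : StableUnder K J)
    [Module.Finite k (MvPolynomial (Fin h) k ⧸ J)]
    [Module.Finite k (MvPolynomial (Fin h) k ⧸ (K * J))] :
    Module.finrank k (soc J) ≤ Module.finrank k (soc (K * J)) := by
  obtain ⟨e, s, hs⟩ := Submodule.fg_iff_exists_fin_generating_family.1
    (IsNoetherian.noetherian K)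
  set f : ℕ → MvPolynomial (Fin h) k := fun i => if hi : i < e then s ⟨i, hi⟩ else 0 with hf
  have hf0 : ∀ i, e ≤ i → f i = 0 := by
    intro i hi
    simp only [hf]
    rw [dif_neg (by omega)]
  have hspan : Ideal.span (Set.range f) = K := by
    apply le_antisymm
    · rw [Ideal.span_le]
      rintro _ ⟨i, rfl⟩
      simp only [hf]
      split_ifs with hi
      · rw [← hs]; exact Submodule.subset_span ⟨_, rfl⟩
      · exact zero_mem _
    · rw [← hs]
      refine Submodule.span_le.2 ?_
      rintro _ ⟨i, rfl⟩
      refine Ideal.subset_span ⟨i, ?_⟩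
      simp only [hf]
      rw [dif_pos i.2]
  have hfK : ∀ i, f i ∈ K := by
    intro i
    rw [← hspan]; exact Ideal.subset_span ⟨i, rfl⟩
  have hmul : ∀ i, ∀ b ∈ J, f i * b ∈ K * J := fun i b hb => Ideal.mul_mem_mul (hfK i) hb
  refine count_le e (fun i => mulSoc (f i) J (K * J) (hmul i)) ?_ ?_
  · intro i hi
    apply LinearMap.ext
    intro x
    apply Subtype.ext
    rw [mulSoc_coe]
    obtain ⟨y, hy⟩ := Submodule.Quotient.mk_surjective _ (x : MvPolynomial (Fin h) k ⧸ J)
    rw [← hy, mulQ_mk, hf0 i hi, zero_mul]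
    rfl
  · intro v N hvN hsum
    -- choose representatives
    have hrep : ∀ n, ∃ a : MvPolynomial (Fin h) k,
        (Submodule.Quotient.mk a : MvPolynomial (Fin h) k ⧸ J) = (v n : _) ∧ (N ≤ n → a = 0) := by
      intro n
      by_cases hn : N ≤ n
      · refine ⟨0, ?_, fun _ => rfl⟩
        rw [hvN n hn]; rfl
      · obtain ⟨a, ha⟩ := Submodule.Quotient.mk_surjective _ (v n : MvPolynomial (Fin h) k ⧸ J)
        exact ⟨a, ha, fun h => absurd h hn⟩
    choose a ha ha0 using hrep
    have hL : ∀ l, ∑ i ∈ Finset.range (l + 1), f i * a (l - i) ∈ K * J := by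
      intro l
      have h1 := congrArg (fun z : soc (K * J) => (z : MvPolynomial (Fin h) k ⧸ (K * J))) (hsum l)
      simp only [Submodule.coe_sum, mulSoc_coe, Submodule.coe_zero] at h1
      rw [← Submodule.Quotient.mk_eq_zero, ← Submodule.mkQ_apply, map_sum]
      rw [← h1]
      refine Finset.sum_congr rfl fun i _ => ?_
      rw [← ha (l - i), mulQ_mk, Submodule.mkQ_apply]
    intro n
    have hmem : a n ∈ J := by
      apply hstab (N + 1)
      intro g hg
      have h2 := dm_seq f a e N hf0 ha0 (K * J) hL n g (by rw [hspan]; exact hg)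
      rw [hspan] at h2
      rwa [pow_succ, mul_assoc]
    apply Subtype.ext
    rw [← ha n]
    rw [Submodule.coe_zero, Submodule.Quotient.mk_eq_zero]
    exact hmem

theorem sub_C_mem (y : MvPolynomial (Fin h) k) : y - C (constantCoeff y) ∈ irr k h := by
  induction y using MvPolynomial.induction_on with
  | C a => simp
  | add p q hp hq =>
    have : p + q - C (constantCoeff (p + q)) =
        (p - C (constantCoeff p)) + (q - C (constantCoeff q)) := by
      rw [map_add, map_add]; ring
    rw [this]
    exact add_mem hp hq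
  | mul_X p i _ =>
    rw [map_mul, constantCoeff_X, mul_zero, map_zero, sub_zero]
    exact Ideal.mul_mem_left _ _ (X_mem_irr i)

theorem constantCoeff_of_mem (y : MvPolynomial (Fin h) k) (hy : y ∈ irr k h) :
    constantCoeff y = 0 := by
  have : irr k h ≤ RingHom.ker (constantCoeff (R := k) (σ := Fin h)) := by
    rw [irr, Ideal.span_le]
    rintro _ ⟨i, rfl⟩
    simp [RingHom.mem_ker]
  exact this hy

/-- `dim_k S/(J + m^2) ≤ t(S/J) + 1` -/
theorem edim_le_soc (J : Ideal (MvPolynomial (Fin h) k)) (hJ : J ≤ irr k h)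
    (hstab : StableUnder (irr k h) J)
    [Module.Finite k (MvPolynomial (Fin h) k ⧸ J)] :
    Module.finrank k (MvPolynomial (Fin h) k ⧸ (J ⊔ irr k h ^ 2)) ≤
      Module.finrank k (soc J) + 1 := by
  set f : ℕ → MvPolynomial (Fin h) k := fun i => if hi : i < h then X ⟨i, hi⟩ else 0 with hf
  have hf0 : ∀ i, h + 1 ≤ i → f i = 0 := by
    intro i hi
    simp only [hf]
    rw [dif_neg (by omega)]
  have hspan : Ideal.span (Set.range f) = irr k h := by
    apply le_antisymm
    · rw [Ideal.span_le]
      rintro _ ⟨i, rfl⟩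
      simp only [hf]
      split_ifs with hi
      · exact X_mem_irr _
      · exact zero_mem _
    · rw [irr]
      refine Ideal.span_le.2 ?_
      rintro _ ⟨i, rfl⟩
      refine Ideal.subset_span ⟨i, ?_⟩
      simp only [hf]
      rw [dif_pos i.2]
  have hfK : ∀ i, f i ∈ irr k h := by
    intro i
    rw [← hspan]; exact Ideal.subset_span ⟨i, rfl⟩
  -- the quotient map
  let π : (MvPolynomial (Fin h) k ⧸ J) →ₗ[MvPolynomial (Fin h) k]
      (MvPolynomial (Fin h) k ⧸ (J ⊔ irr k h ^ 2)) := Submodule.factor le_sup_left
  have hπ : Function.Surjective π := Submodule.factor_surjective _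
  have hπmk : ∀ y, π (Submodule.Quotient.mk y) = Submodule.Quotient.mk y := fun y => rfl
  let πk := π.restrictScalars k
  let M2 : Submodule k (MvPolynomial (Fin h) k ⧸ J) := LinearMap.ker πk
  -- residue
  let ρ : (MvPolynomial (Fin h) k ⧸ J) →ₗ[k] k :=
    (Submodule.restrictScalars k J).liftQ
      ((MvPolynomial.lcoeff k (0 : Fin h →₀ ℕ)))
      (by
        intro b hb
        exact constantCoeff_of_mem b (hJ hb))
  have hρmk : ∀ y : MvPolynomial (Fin h) k, ρ (Submodule.Quotient.mk y) = constantCoeff y := by
    intro y; rfl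
  obtain ⟨W, hW⟩ := Submodule.exists_isCompl (soc J)
  have hdW : Module.finrank k (soc J) + Module.finrank k W =
      Module.finrank k (MvPolynomial (Fin h) k ⧸ J) := Submodule.finrank_add_eq_of_isCompl hW
  have hfinE : Module.Finite k (MvPolynomial (Fin h) k ⧸ (J ⊔ irr k h ^ 2)) :=
    Module.Finite.of_surjective πk hπ
  have hdE : Module.finrank k (MvPolynomial (Fin h) k ⧸ (J ⊔ irr k h ^ 2)) +
      Module.finrank k M2 = Module.finrank k (MvPolynomial (Fin h) k ⧸ J) := by
    have h1 := LinearMap.finrank_range_add_finrank_ker πk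
    have h2 : LinearMap.range πk = ⊤ := LinearMap.range_eq_top.2 hπ
    rw [h2, finrank_top] at h1
    exact h1
  -- the maps
  have hmem : ∀ (i : ℕ) (x : MvPolynomial (Fin h) k ⧸ J),
      f i • x - ρ x • (Submodule.Quotient.mk (f i) : MvPolynomial (Fin h) k ⧸ J) ∈ M2 := by
    intro i x
    obtain ⟨y, rfl⟩ := Submodule.Quotient.mk_surjective _ x
    have e1 : f i • (Submodule.Quotient.mk y : MvPolynomial (Fin h) k ⧸ J) -
        ρ (Submodule.Quotient.mk y) • (Submodule.Quotient.mk (f i)) =
        Submodule.Quotient.mk (f i * (y - C (constantCoeff y))) := by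
      rw [hρmk]
      have e2 : constantCoeff y • (Submodule.Quotient.mk (f i) : MvPolynomial (Fin h) k ⧸ J) =
          Submodule.Quotient.mk (f i * C (constantCoeff y)) := by
        rw [mul_comm, ← MvPolynomial.smul_eq_C_mul]
        rfl
      rw [e2, ← Submodule.Quotient.mk_smul, ← Submodule.Quotient.mk_sub, smul_eq_mul, mul_sub]
    rw [e1]
    change π _ = 0
    rw [hπmk, Submodule.Quotient.mk_eq_zero, pow_two]
    exact Ideal.mem_sup_right (Ideal.mul_mem_mul (hfK i) (sub_C_mem y))
  let μ1 : ℕ → (W →ₗ[k] M2) := fun i =>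
    { toFun := fun w => ⟨f i • (w : MvPolynomial (Fin h) k ⧸ J) -
        ρ w • (Submodule.Quotient.mk (f i) : MvPolynomial (Fin h) k ⧸ J), hmem i w⟩
      map_add' := by
        intro a b
        apply Subtype.ext
        simp only [Submodule.coe_add, map_add, smul_add, add_smul]
        abel
      map_smul' := by
        intro c a
        apply Subtype.ext
        simp only [Submodule.coe_smul, map_smul, RingHom.id_apply, smul_sub, smul_eq_mul,
          mul_smul]
        rw [smul_comm] }
  let μ2 : ℕ → (W →ₗ[k] k) := fun i => if i = 0 then ρ.comp W.subtype else 0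
  have hcount : Module.finrank k W ≤ Module.finrank k (M2 × k) := by
    refine count_le (h + 1) (fun i => (μ1 i).prod (μ2 i)) ?_ ?_
    · intro i hi
      apply LinearMap.ext
      intro x
      refine Prod.ext (Subtype.ext ?_) ?_
      · change f i • (x : MvPolynomial (Fin h) k ⧸ J) -
          ρ x • (Submodule.Quotient.mk (f i) : MvPolynomial (Fin h) k ⧸ J) = 0
        rw [hf0 i hi, zero_smul, Submodule.Quotient.mk_zero, smul_zero, sub_zero]
      · change (if i = 0 then ρ.comp W.subtype else 0 : W →ₗ[k] k) x = 0
        rw [if_neg (by omega)]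
        rfl
    · intro v N hvN hsum
      have hres : ∀ l, ρ (v l) = 0 := by
        intro l
        have h1 := congrArg Prod.snd (hsum l)
        rw [Prod.snd_sum] at h1
        rw [Finset.sum_eq_single 0] at h1
        · change (if 0 = 0 then ρ.comp W.subtype else 0 : W →ₗ[k] k) (v (l - 0)) = 0 at h1
          rw [if_pos rfl] at h1
          exact h1
        · intro i _ hi
          change (if i = 0 then ρ.comp W.subtype else 0 : W →ₗ[k] k) (v (l - i)) = 0
          rw [if_neg hi]
          rfl
        · intro hl
          exact absurd (Finset.mem_range.2 (Nat.succ_pos l)) hl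
      have hmain : ∀ l, ∑ i ∈ Finset.range (l + 1),
          f i • ((v (l - i) : W) : MvPolynomial (Fin h) k ⧸ J) = 0 := by
        intro l
        have h1 := congrArg Prod.fst (hsum l)
        rw [Prod.fst_sum] at h1
        have h2 := congrArg (fun z : M2 => (z : MvPolynomial (Fin h) k ⧸ J)) h1
        simp only [Submodule.coe_sum] at h2
        rw [← h2.trans Submodule.coe_zero]
        refine Finset.sum_congr rfl fun i _ => ?_
        change _ = f i • ((v (l - i) : W) : MvPolynomial (Fin h) k ⧸ J) -
          ρ (v (l - i)) • (Submodule.Quotient.mk (f i) : MvPolynomial (Fin h) k ⧸ J)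
        rw [hres, zero_smul, sub_zero]
      have hrep : ∀ n, ∃ a : MvPolynomial (Fin h) k,
          (Submodule.Quotient.mk a : MvPolynomial (Fin h) k ⧸ J) = (v n : _) ∧
            (N ≤ n → a = 0) := by
        intro n
        by_cases hn : N ≤ n
        · refine ⟨0, ?_, fun _ => rfl⟩
          rw [hvN n hn]; rfl
        · obtain ⟨a, ha⟩ := Submodule.Quotient.mk_surjective _ (v n : MvPolynomial (Fin h) k ⧸ J)
          exact ⟨a, ha, fun h => absurd h hn⟩
      choose a ha ha0 using hrep
      have hL : ∀ l, ∑ i ∈ Finset.range (l + 1), f i * a (l - i) ∈ J := by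
        intro l
        rw [← Submodule.Quotient.mk_eq_zero, ← Submodule.mkQ_apply, map_sum, ← hmain l]
        refine Finset.sum_congr rfl fun i _ => ?_
        rw [← ha (l - i), Submodule.mkQ_apply, ← smul_eq_mul, Submodule.Quotient.mk_smul]
      intro n
      have hsoc : (v n : MvPolynomial (Fin h) k ⧸ J) ∈ soc J := by
        rw [mem_soc]
        intro i
        rw [← ha n, ← Submodule.Quotient.mk_smul, Submodule.Quotient.mk_eq_zero, smul_eq_mul]
        apply hstab N
        intro g hg
        have h2 := dm_seq f a (h + 1) N hf0 ha0 J hL n (X i * g) (by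
          rw [hspan, pow_succ']
          exact Ideal.mul_mem_mul (X_mem_irr i) hg)
        rw [hspan] at h2
        have e3 : X i * a n * g = a n * (X i * g) := by ring
        rw [e3]
        exact h2
      have hbot := (Submodule.disjoint_def.1 hW.disjoint) _ hsoc (v n).2
      exact Subtype.ext hbot
  rw [Module.finrank_prod, Module.finrank_self] at hcount
  omega

end Pool.Agent.H6.CMT
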