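import Pool.Agent.H6.CMT.DM

/-! Sequence form of Dedekind-Mertens, a counting lemma, integrally closed ideals. -/

namespace Pool.Agent.H6.CMT

open Polynomial

section Seq

variable {S : Type*} [CommRing S]

/-- the polynomial with coefficients `f 0, ..., f (e-1)` -/
noncomputable def seqPoly (f : ℕ → S) (e : ℕ) : S[X] := ∑ i ∈ Finset.range e, monomial i (f i)

theorem seqPoly_coeff (f : ℕ → S) (e : ℕ) (hf : ∀ i, e ≤ i → f i = 0) (n : ℕ) :
    (seqPoly f e).coeff n = f n := by
  rw [seqPoly, finsetSum_coeff]
  simp only [coeff_monomial]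
  rw [Finset.sum_ite_eq' (Finset.range e) n f]
  split_ifs with h
  · rfl
  · rw [hf n (by simpa using h)]

theorem seqPoly_content (f : ℕ → S) (e : ℕ) (hf : ∀ i, e ≤ i → f i = 0) :
    (seqPoly f e).contentIdeal = Ideal.span (Set.range f) := by
  apply le_antisymm
  · rw [content_le_iff]
    intro i
    rw [seqPoly_coeff f e hf]
    exact Ideal.subset_span ⟨i, rfl⟩
  · rw [Ideal.span_le]
    rintro _ ⟨i, rfl⟩
    have h := coeff_mem_contentIdeal (seqPoly f e) i
    rw [seqPoly_coeff f e hf] at h
    exact h

theorem seqPoly_natDegree (a : ℕ → S) (N : ℕ) (ha : ∀ i, N ≤ i → a i = 0) :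
    (seqPoly a N).natDegree ≤ N := by
  rw [natDegree_le_iff_coeff_eq_zero]
  intro m hm
  rw [seqPoly_coeff a N ha]
  exact ha m hm.le

theorem seqPoly_mul_content (f a : ℕ → S) (e N : ℕ) (hf : ∀ i, e ≤ i → f i = 0)
    (ha : ∀ i, N ≤ i → a i = 0) (L : Ideal S)
    (h : ∀ l, ∑ i ∈ Finset.range (l + 1), f i * a (l - i) ∈ L) :
    (seqPoly f e * seqPoly a N).contentIdeal ≤ L := by
  rw [content_le_iff]
  intro l
  rw [coeff_mul, Finset.Nat.sum_antidiagonal_eq_sum_range_succ_mk]
  have e1 : ∀ i ∈ Finset.range l.succ, (seqPoly f e).coeff i * (seqPoly a N).coeff (l - i) =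
      f i * a (l - i) := by
    intro i _
    rw [seqPoly_coeff f e hf, seqPoly_coeff a N ha]
  rw [Finset.sum_congr rfl e1]
  exact h l

theorem dm_seq (f a : ℕ → S) (e N : ℕ) (hf : ∀ i, e ≤ i → f i = 0) (ha : ∀ i, N ≤ i → a i = 0)
    (L : Ideal S) (h : ∀ l, ∑ i ∈ Finset.range (l + 1), f i * a (l - i) ∈ L) (n : ℕ) (g : S)
    (hg : g ∈ Ideal.span (Set.range f) ^ (N + 1)) :
    a n * g ∈ Ideal.span (Set.range f) ^ N * L := by
  have hdm := dedekind_mertens N (seqPoly f e) (seqPoly a N) (seqPoly_natDegree a N ha)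
  rw [seqPoly_content f e hf, seqPoly_content a N ha] at hdm
  have han : a n ∈ Ideal.span (Set.range a) := Ideal.subset_span ⟨n, rfl⟩
  have h1 : g * a n ∈ Ideal.span (Set.range f) ^ (N + 1) * Ideal.span (Set.range a) :=
    Ideal.mul_mem_mul hg han
  have h2 := hdm h1
  have h3 : Ideal.span (Set.range f) ^ N * (seqPoly f e * seqPoly a N).contentIdeal ≤
      Ideal.span (Set.range f) ^ N * L :=
    Ideal.mul_mono_right (seqPoly_mul_content f a e N hf ha L h)
  rw [mul_comm (a n) g]
  exact h3 h2

/-- `J` is integrally closed: it contains every `f` with `f^n + a_1 f^(n-1) + ... + a_n = 0`,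
`a_i ∈ J^i`. -/
def IntClosed (J : Ideal S) : Prop :=
  ∀ f : S, (∃ p : S[X], p.Monic ∧ (∀ i, p.coeff i ∈ J ^ (p.natDegree - i)) ∧ p.eval f = 0) →
    f ∈ J

/-- `(A^N J : A^N) = J` for every `N`. -/
def StableUnder (A J : Ideal S) : Prop :=
  ∀ (N : ℕ) (f : S), (∀ g ∈ A ^ N, f * g ∈ A ^ N * J) → f ∈ J

theorem IntClosed.stableUnder [IsDomain S] [IsNoetherianRing S] {A J : Ideal S}
    (hJ : IntClosed J) (hA : A ≠ ⊥) : StableUnder A J := by
  intro N f hf
  apply hJ
  set B : Ideal S := A ^ N with hB
  have hB0 : B ≠ ⊥ := pow_ne_zero N hA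
  let φ : Module.End S B := LinearMap.lsmul S B f
  have hrange : LinearMap.range φ ≤ J • (⊤ : Submodule S B) := by
    rintro _ ⟨x, rfl⟩
    have hx : f * (x : S) ∈ B * J := hf x x.2
    have h1 : ((φ x : B) : S) ∈ J • B := by
      change f * (x : S) ∈ J • B
      rw [smul_eq_mul, mul_comm]
      exact hx
    have h2 : Submodule.map B.subtype (J • (⊤ : Submodule S B)) = J • B := by
      rw [Submodule.map_smul'', Submodule.map_top, Submodule.range_subtype]
    rw [← h2] at h1
    obtain ⟨y, hy, hyx⟩ := h1
    have : y = φ x := Subtype.ext hyx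
    rwa [← this]
  obtain ⟨p, hpm, -, hp, hp0⟩ :=
    LinearMap.exists_monic_and_natDegree_eq_and_coeff_mem_pow_and_aeval_eq_zero S φ J hrange
  refine ⟨p, hpm, hp, ?_⟩
  obtain ⟨b, hb, hb0⟩ := Submodule.exists_mem_ne_zero_of_ne_bot hB0
  have key : ∀ q : S[X], ((aeval φ q) ⟨b, hb⟩ : B) = (q.eval f) • (⟨b, hb⟩ : B) := by
    intro q
    induction q using Polynomial.induction_on' with
    | add p q hp hq => simp [hp, hq, add_smul]
    | monomial n a =>
      rw [aeval_monomial, eval_monomial]
      have : ∀ n : ℕ, (φ ^ n) ⟨b, hb⟩ = (f ^ n) • (⟨b, hb⟩ : B) := by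
        intro n
        induction n with
        | zero => simp
        | succ n ih =>
          rw [pow_succ', Module.End.mul_apply, ih, pow_succ']
          change f • (f ^ n • (⟨b, hb⟩ : B)) = _
          rw [smul_smul]
      simp [this, mul_smul]
  have h3 := key p
  rw [hp0] at h3
  have h4 : (p.eval f) * b = 0 := by
    have := congrArg (Subtype.val) h3
    simpa using this.symm
  rcases mul_eq_zero.1 h4 with h | h
  · exact h
  · exact absurd h hb0

end Seq

section Count

variable {k : Type*} [Field k] {V U : Type*} [AddCommGroup V] [Module k V] [Module.Finite k V]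
  [AddCommGroup U] [Module k U] [Module.Finite k U]

/-- zero extension -/
def extZ {N : ℕ} (v : Fin N → V) (n : ℕ) : V := if h : n < N then v ⟨n, h⟩ else 0

theorem count_le (e : ℕ) (μ : ℕ → V →ₗ[k] U) (hμ : ∀ i, e ≤ i → μ i = 0)
    (hinj : ∀ (v : ℕ → V) (N : ℕ), (∀ n, N ≤ n → v n = 0) →
      (∀ l, ∑ i ∈ Finset.range (l + 1), μ i (v (l - i)) = 0) → ∀ n, v n = 0) :
    Module.finrank k V ≤ Module.finrank k U := by
  have main : ∀ N : ℕ, N * Module.finrank k V ≤ (N + e) * Module.finrank k U := by
    intro N
    let Φ : (Fin N → V) →ₗ[k] (Fin (N + e) → U) :=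
      { toFun := fun v l => ∑ i ∈ Finset.range ((l : ℕ) + 1), μ i (extZ v ((l : ℕ) - i))
        map_add' := by
          intro v w
          funext l
          simp only [Pi.add_apply]
          rw [← Finset.sum_add_distrib]
          refine Finset.sum_congr rfl fun i _ => ?_
          rw [← map_add]
          congr 1
          unfold extZ
          split_ifs <;> simp
        map_smul' := by
          intro c v
          funext l
          simp only [Pi.smul_apply, RingHom.id_apply, Finset.smul_sum]
          refine Finset.sum_congr rfl fun i _ => ?_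
          rw [← map_smul]
          congr 1
          unfold extZ
          split_ifs <;> simp }
    have hΦ : Function.Injective Φ := by
      rw [injective_iff_map_eq_zero]
      intro v hv
      have h0 : ∀ n, N ≤ n → extZ v n = 0 := by
        intro n hn
        unfold extZ
        rw [dif_neg (by omega)]
      have h1 := hinj (extZ v) N h0 (by
        intro l
        by_cases hl : l < N + e
        · exact congrFun hv ⟨l, hl⟩
        · apply Finset.sum_eq_zero
          intro i _
          by_cases hi : e ≤ i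
          · rw [hμ i hi]; rfl
          · rw [h0 (l - i) (by omega), map_zero])
      funext n
      have := h1 n
      unfold extZ at this
      rw [dif_pos n.2] at this
      exact this
    have := LinearMap.finrank_le_finrank_of_injective hΦ
    simpa [Module.finrank_pi_fintype] using this
  by_contra hcon
  push Not at hcon
  have h := main (e * Module.finrank k U + 1)
  have h2 : (e * Module.finrank k U + 1) * (Module.finrank k U + 1) ≤
      (e * Module.finrank k U + 1) * Module.finrank k V := Nat.mul_le_mul_left _ hcon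
  nlinarith

end Count

end Pool.Agent.H6.CMT
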